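import Pool.Graph.R_seed8.H974R3.PairFormula

/-!
# Bilinear pairings of the ground states with an abstract kernel
-/

set_option autoImplicit false
set_option linter.unusedSectionVars false

namespace Pool.Agent.Helper82.WN

open Pool.Agent.H974R3 Equiv MvPolynomial

/-- abstract kernels -/
structure Ker (w : ℂ) (κ : (m : ℕ) → Pat (m + 1) → Pat (m + 1) → ℂ) : Prop where
  adj : ∀ (m i : ℕ) (σ τ : Pat (m + 1)), 1 ≤ i → i + 1 ≤ m →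
    κ m (E m i σ) τ = κ m σ (E m i τ)
  zero : ∀ (m : ℕ) (σ : Pat (m + 1)) (τ : Pat (m + 3)), κ (m + 2) (ins σ) (E (m + 2) 0 τ) = 0
  right : ∀ (m : ℕ) (σ τ : Pat (m + 1)),
    κ (m + 2) (ins σ) (rot (m + 2) (ins (rotInv m τ))) = κ m σ τ
  left : ∀ (m : ℕ) (σ τ : Pat (m + 1)),
    κ (m + 2) (ins σ) (rotInv (m + 2) (ins τ)) = w * κ m (rot m σ) τ
  one : ∀ (m : ℕ) (σ : Pat (m + 1)) (τ : Pat (m + 3)),
    κ (m + 2) (rotInv (m + 2) (ins σ)) (rotInv (m + 2) τ) = w⁻¹ * κ (m + 2) (ins σ) τ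
  base : κ 0 (base 0) (base 0) = 1

/-- the pairing `B` -/
noncomputable def BK (κ : (m : ℕ) → Pat (m + 1) → Pat (m + 1) → ℂ) {n : ℕ}
    (Ψ Ψ' : Pat (2 * n + 1) → MvPolynomial (Fin (2 * n + 1)) ℂ) (x y : ℂ)
    (z : Fin (2 * n) → ℂ) : ℂ :=
  KK (fun σ τ : Pat (2 * n + 1) => κ (2 * n) σ τ)
    (fun σ => eval (Fin.cons x z : Fin (2 * n + 1) → ℂ) (Ψ σ))
    (fun τ => eval (Fin.cons y z : Fin (2 * n + 1) → ℂ) (Ψ' τ))

/-- the pairing `C` -/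
noncomputable def CK (κ : (m : ℕ) → Pat (m + 1) → Pat (m + 1) → ℂ) {k : ℕ}
    (Ψ : Pat (2 * k + 1) → MvPolynomial (Fin (2 * k + 1)) ℂ)
    (Ψ' : Pat (2 * k + 3) → MvPolynomial (Fin (2 * k + 3)) ℂ) (y1 y2 : ℂ)
    (z : Fin (2 * k + 1) → ℂ) : ℂ :=
  KK (fun (σ : Pat (2 * k + 1)) (τ : Pat (2 * k + 3)) => κ (2 * k + 2) (ins σ) τ)
    (fun σ => eval z (Ψ σ))
    (fun τ => eval (Fin.cons y1 (Fin.cons y2 z : Fin (2 * k + 2) → ℂ) : Fin (2 * k + 3) → ℂ) (Ψ' τ))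

variable {w : ℂ} {κ : (m : ℕ) → Pat (m + 1) → Pat (m + 1) → ℂ}

theorem BK_adj (K : Ker w κ) {q : ℂ} (hq : q ^ 2 + q + 1 = 0) {n : ℕ}
    {Ψ Ψ' : Pat (2 * n + 1) → MvPolynomial (Fin (2 * n + 1)) ℂ} (h : PsiSpec q n Ψ)
    (h' : PsiSpec (q ^ 2) n Ψ') (x y : ℂ) (z : Fin (2 * n) → ℂ) (i : ℕ) (hi : i + 1 < 2 * n)
    (hz : z ⟨i, by omega⟩ ^ 3 ≠ z ⟨i + 1, hi⟩ ^ 3) :
    BK κ Ψ Ψ' x y (z ∘ swap ⟨i, by omega⟩ ⟨i + 1, hi⟩) = BK κ Ψ Ψ' x y z := by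
  have i1 : ix (2 * n) (i + 1) = (⟨i, by omega⟩ : Fin (2 * n)).succ := ix_succ _
  have i2 : ix (2 * n) (i + 1 + 1) = (⟨i + 1, hi⟩ : Fin (2 * n)).succ := ix_succ _
  apply KK_symm (fun σ τ : Pat (2 * n + 1) => κ (2 * n) σ τ) (E (2 * n) (i + 1)) (E (2 * n) (i + 1)) ?_
    (E_idem _ _) q hq (z ⟨i, by omega⟩) (z ⟨i + 1, hi⟩) hz
  · intro σ
    have := ev_exch h (i + 1) hi (Fin.cons x z : Fin (2 * n + 1) → ℂ) σ
    rw [i1, i2, cons_swap, Fin.cons_succ, Fin.cons_succ] at this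
    exact this
  · intro τ
    have := ev_exch h' (i + 1) hi (Fin.cons y z : Fin (2 * n + 1) → ℂ) τ
    rw [i1, i2, cons_swap, Fin.cons_succ, Fin.cons_succ] at this
    exact this
  · intro σ τ
    exact K.adj (2 * n) (i + 1) σ τ (by omega) (by omega)

theorem CK_adj (K : Ker w κ) {q : ℂ} (hq : q ^ 2 + q + 1 = 0) {k : ℕ}
    {Ψ : Pat (2 * k + 1) → MvPolynomial (Fin (2 * k + 1)) ℂ} (h : PsiSpec q k Ψ)
    {Ψ' : Pat (2 * k + 3) → MvPolynomial (Fin (2 * k + 3)) ℂ}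
    (h' : PsiSpec (q ^ 2) (k + 1) Ψ') (y1 y2 : ℂ) (z : Fin (2 * k + 1) → ℂ) (i : ℕ)
    (hi : i < 2 * k) (hz : z ⟨i, by omega⟩ ^ 3 ≠ z ⟨i + 1, by omega⟩ ^ 3) :
    CK κ Ψ Ψ' y1 y2 (z ∘ swap ⟨i, by omega⟩ ⟨i + 1, by omega⟩) = CK κ Ψ Ψ' y1 y2 z := by
  have i1 : ix (2 * k) i = (⟨i, by omega⟩ : Fin (2 * k + 1)) := ix_of_lt _
  have i2 : ix (2 * k) (i + 1) = (⟨i + 1, by omega⟩ : Fin (2 * k + 1)) := ix_of_lt _
  have j1 : ix (2 * (k + 1)) (i + 2) = (⟨i, by omega⟩ : Fin (2 * k + 1)).succ.succ := by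
    ext; simp [ix]; omega
  have j2 : ix (2 * (k + 1)) (i + 2 + 1) = (⟨i + 1, by omega⟩ : Fin (2 * k + 1)).succ.succ := by
    ext; simp [ix]; omega
  apply KK_symm (fun (σ : Pat (2 * k + 1)) (τ : Pat (2 * k + 3)) => κ (2 * k + 2) (ins σ) τ) (E (2 * k) i)
    (E (2 * k + 2) (i + 2)) ?_ (E_idem _ _) q hq (z ⟨i, by omega⟩) (z ⟨i + 1, by omega⟩) hz
  · intro σ
    have := ev_exch h i hi z σ
    rw [i1, i2] at this
    exact this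
  · intro τ
    have := ev_exch h' (i + 2) (by omega)
      (Fin.cons y1 (Fin.cons y2 z : Fin (2 * k + 2) → ℂ) : Fin (2 * k + 3) → ℂ) τ
    rw [j1, j2, cons_swap, cons_swap, Fin.cons_succ, Fin.cons_succ, Fin.cons_succ, Fin.cons_succ] at this
    exact this
  · intro σ τ
    rw [← ins_E hi]
    exact K.adj (2 * k + 2) (i + 2) (ins σ) τ (by omega) (by omega)

theorem CK_anti (K : Ker w κ) {q : ℂ} {k : ℕ}
    {Ψ : Pat (2 * k + 1) → MvPolynomial (Fin (2 * k + 1)) ℂ}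
    {Ψ' : Pat (2 * k + 3) → MvPolynomial (Fin (2 * k + 3)) ℂ}
    (h' : PsiSpec (q ^ 2) (k + 1) Ψ') (y1 y2 : ℂ) (z : Fin (2 * k + 1) → ℂ) :
    (q ^ 2 * y1 - (q ^ 2) ^ 2 * y2) * CK κ Ψ Ψ' y1 y2 z =
      (q ^ 2 * y2 - (q ^ 2) ^ 2 * y1) * CK κ Ψ Ψ' y2 y1 z := by
  have e0 : KK (fun (σ : Pat (2 * k + 1)) (τ : Pat (2 * k + 3)) => κ (2 * k + 2) (ins σ) τ)
      (fun σ => eval z (Ψ σ)) (push (E (2 * k + 2) 0) (fun τ => eval (Fin.cons y1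
        (Fin.cons y2 z : Fin (2 * k + 2) → ℂ) : Fin (2 * k + 3) → ℂ) (Ψ' τ))) = 0 := by
    rw [KK_push_right]
    unfold KK
    apply Finset.sum_eq_zero
    intro σ _
    apply Finset.sum_eq_zero
    intro τ _
    show κ (2 * k + 2) (ins σ) (E (2 * k + 2) 0 τ) * _ * _ = 0
    rw [K.zero (2 * k) σ τ]
    ring
  have e1 : ∀ τ, (q ^ 2 * y1 - (q ^ 2) ^ 2 * y2) * eval (Fin.cons y1
        (Fin.cons y2 z : Fin (2 * k + 2) → ℂ) : Fin (2 * k + 3) → ℂ) (Ψ' τ) +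
      (y1 - y2) * push (E (2 * k + 2) 0) (fun τ => eval (Fin.cons y1
        (Fin.cons y2 z : Fin (2 * k + 2) → ℂ) : Fin (2 * k + 3) → ℂ) (Ψ' τ)) τ =
      (q ^ 2 * y2 - (q ^ 2) ^ 2 * y1) * eval (Fin.cons y2
        (Fin.cons y1 z : Fin (2 * k + 2) → ℂ) : Fin (2 * k + 3) → ℂ) (Ψ' τ) := by
    intro τ
    have := ev_exch h' 0 (by omega)
      (Fin.cons y1 (Fin.cons y2 z : Fin (2 * k + 2) → ℂ) : Fin (2 * k + 3) → ℂ) τ
    have i0 : ix (2 * (k + 1)) 0 = (0 : Fin (2 * k + 3)) := rfl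
    have i1 : ix (2 * (k + 1)) (0 + 1) = (1 : Fin (2 * k + 3)) := by
      ext; simp [ix]
    rw [i0, i1, cons_cons_swap] at this
    exact this
  have e2 := KK_lin_right (fun (σ : Pat (2 * k + 1)) (τ : Pat (2 * k + 3)) => κ (2 * k + 2) (ins σ) τ)
    (q ^ 2 * y1 - (q ^ 2) ^ 2 * y2) (y1 - y2) (fun σ => eval z (Ψ σ))
    (fun τ => eval (Fin.cons y1 (Fin.cons y2 z : Fin (2 * k + 2) → ℂ) : Fin (2 * k + 3) → ℂ) (Ψ' τ))
    (push (E (2 * k + 2) 0) (fun τ => eval (Fin.cons y1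
        (Fin.cons y2 z : Fin (2 * k + 2) → ℂ) : Fin (2 * k + 3) → ℂ) (Ψ' τ)))
  rw [e0, mul_zero, add_zero] at e2
  simp_rw [e1] at e2
  rw [KK_smul_right] at e2
  exact e2.symm

/-- `C` from `B` -/
theorem CK_from_right (K : Ker w κ) {q : ℂ} (hq : q ^ 2 + q + 1 = 0) {k : ℕ}
    {Ψ : Pat (2 * k + 1) → MvPolynomial (Fin (2 * k + 1)) ℂ}
    {Ψ₁ : Pat (2 * k + 1) → MvPolynomial (Fin (2 * k + 1)) ℂ} (h₁ : PsiSpec (q ^ 2) k Ψ₁)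
    {Ψ' : Pat (2 * k + 3) → MvPolynomial (Fin (2 * k + 3)) ℂ}
    (h' : PsiSpec (q ^ 2) (k + 1) Ψ') (y1 y2 : ℂ) (z : Fin (2 * k) → ℂ) :
    CK κ Ψ Ψ' y1 y2 (Fin.cons (q ^ 2 * y2) z : Fin (2 * k + 1) → ℂ) =
      Fac (q ^ 2) y2 (Fin.snoc z y1 : Fin (2 * k + 1) → ℂ) * BK κ Ψ Ψ₁ (q ^ 2 * y2) y1 z := by
  have hq2 : (q ^ 2) ^ 2 + q ^ 2 + 1 = 0 := by linear_combination (q ^ 2 - q + 1) * hq
  have key : ∀ t : Pat (2 * k + 3), eval (Fin.cons y1 (Fin.cons y2 (Fin.cons (q ^ 2 * y2) z :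
      Fin (2 * k + 1) → ℂ) : Fin (2 * k + 2) → ℂ) : Fin (2 * k + 3) → ℂ) (Ψ' (rot (2 * k + 2) t)) =
      eval (Fin.cons y2 (Fin.cons (q ^ 2 * y2) (Fin.snoc z y1 : Fin (2 * k + 1) → ℂ) :
        Fin (2 * k + 2) → ℂ) : Fin (2 * k + 3) → ℂ) (Ψ' t) := by
    intro t
    have := ev_rot h' (Fin.cons y1 (Fin.cons y2 (Fin.cons (q ^ 2 * y2) z :
      Fin (2 * k + 1) → ℂ) : Fin (2 * k + 2) → ℂ) : Fin (2 * k + 3) → ℂ) t
    refine this.trans ?_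
    congr 2
    refine (cons_comp_rotate (N := 2 * k + 2) _ _).trans ?_
    rw [← Fin.cons_snoc_eq_snoc_cons, ← Fin.cons_snoc_eq_snoc_cons]
  have hr := psi_rec (q ^ 2) hq2 k Ψ₁ h₁ Ψ' h' y2 (Fin.snoc z y1 : Fin (2 * k + 1) → ℂ)
  unfold CK KK
  have s1 : ∀ σ : Pat (2 * k + 1), ∑ τ : Pat (2 * k + 3), κ (2 * k + 2) (ins σ) τ *
      eval (Fin.cons (q ^ 2 * y2) z : Fin (2 * k + 1) → ℂ) (Ψ σ) *
      eval (Fin.cons y1 (Fin.cons y2 (Fin.cons (q ^ 2 * y2) z :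
        Fin (2 * k + 1) → ℂ) : Fin (2 * k + 2) → ℂ) : Fin (2 * k + 3) → ℂ) (Ψ' τ) =
      ∑ τ : Pat (2 * k + 1), Fac (q ^ 2) y2 (Fin.snoc z y1 : Fin (2 * k + 1) → ℂ) * (κ (2 * k) σ τ *
      eval (Fin.cons (q ^ 2 * y2) z : Fin (2 * k + 1) → ℂ) (Ψ σ) *
      eval (Fin.cons y1 z : Fin (2 * k + 1) → ℂ) (Ψ₁ τ)) := by
    intro σ
    rw [← sum_rot (m := 2 * k + 2)]
    simp_rw [key]
    rw [sum_ins]
    · rw [← sum_rot (m := 2 * k) (fun τ => Fac (q ^ 2) y2 (Fin.snoc z y1 : Fin (2 * k + 1) → ℂ) *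
        (κ (2 * k) σ τ * eval (Fin.cons (q ^ 2 * y2) z : Fin (2 * k + 1) → ℂ) (Ψ σ) *
        eval (Fin.cons y1 z : Fin (2 * k + 1) → ℂ) (Ψ₁ τ)))]
      apply Finset.sum_congr rfl
      intro τ _
      rw [hr.1 τ, ev_rot h₁, cons_comp_rotate]
      have := K.right (2 * k) σ (rot (2 * k) τ)
      rw [rotInv_rot] at this
      rw [this]
      ring
    · intro τ hτ
      rw [hr.2 τ hτ, mul_zero]
  simp_rw [s1]
  unfold BK KK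
  simp_rw [Finset.mul_sum]

/-- `C` from `B`, left version -/
theorem CK_from_left (K : Ker w κ) {q : ℂ} (hq : q ^ 2 + q + 1 = 0) {k : ℕ}
    {Ψ : Pat (2 * k + 1) → MvPolynomial (Fin (2 * k + 1)) ℂ} (h : PsiSpec q k Ψ)
    {Ψ₁ : Pat (2 * k + 1) → MvPolynomial (Fin (2 * k + 1)) ℂ} (h₁ : PsiSpec (q ^ 2) k Ψ₁)
    {Ψ' : Pat (2 * k + 3) → MvPolynomial (Fin (2 * k + 3)) ℂ}
    (h' : PsiSpec (q ^ 2) (k + 1) Ψ') (a y2 : ℂ) (z : Fin (2 * k) → ℂ) :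
    CK κ Ψ Ψ' (q ^ 2 * a) y2 (Fin.snoc z a : Fin (2 * k + 1) → ℂ) =
      w * Fac (q ^ 2) a (Fin.cons y2 z : Fin (2 * k + 1) → ℂ) * BK κ Ψ Ψ₁ a y2 z := by
  have hq2 : (q ^ 2) ^ 2 + q ^ 2 + 1 = 0 := by linear_combination (q ^ 2 - q + 1) * hq
  have key : ∀ t : Pat (2 * k + 3), eval (Fin.cons (q ^ 2 * a) (Fin.cons y2 (Fin.snoc z a :
      Fin (2 * k + 1) → ℂ) : Fin (2 * k + 2) → ℂ) : Fin (2 * k + 3) → ℂ) (Ψ' t) =
      eval (Fin.cons a (Fin.cons (q ^ 2 * a) (Fin.cons y2 z : Fin (2 * k + 1) → ℂ) :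
        Fin (2 * k + 2) → ℂ) : Fin (2 * k + 3) → ℂ) (Ψ' (rot (2 * k + 2) t)) := by
    intro t
    have := ev_rot h' (Fin.cons a (Fin.cons (q ^ 2 * a) (Fin.cons y2 z :
      Fin (2 * k + 1) → ℂ) : Fin (2 * k + 2) → ℂ) : Fin (2 * k + 3) → ℂ) t
    refine Eq.trans ?_ this.symm
    congr 2
    refine Eq.trans ?_ (cons_comp_rotate (N := 2 * k + 2) _ _).symm
    rw [← Fin.cons_snoc_eq_snoc_cons, ← Fin.cons_snoc_eq_snoc_cons]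
  have hr := psi_rec (q ^ 2) hq2 k Ψ₁ h₁ Ψ' h' a (Fin.cons y2 z : Fin (2 * k + 1) → ℂ)
  unfold CK KK
  have s1 : ∀ σ : Pat (2 * k + 1), ∑ τ : Pat (2 * k + 3), κ (2 * k + 2) (ins σ) τ *
      eval (Fin.snoc z a : Fin (2 * k + 1) → ℂ) (Ψ σ) *
      eval (Fin.cons (q ^ 2 * a) (Fin.cons y2 (Fin.snoc z a :
        Fin (2 * k + 1) → ℂ) : Fin (2 * k + 2) → ℂ) : Fin (2 * k + 3) → ℂ) (Ψ' τ) =
      ∑ τ : Pat (2 * k + 1), w * Fac (q ^ 2) a (Fin.cons y2 z : Fin (2 * k + 1) → ℂ) *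
      (κ (2 * k) (rot (2 * k) σ) τ *
      eval (Fin.cons a z : Fin (2 * k + 1) → ℂ) (Ψ (rot (2 * k) σ)) *
      eval (Fin.cons y2 z : Fin (2 * k + 1) → ℂ) (Ψ₁ τ)) := by
    intro σ
    simp_rw [key]
    rw [← sum_rotInv (m := 2 * k + 2)]
    simp_rw [rot_rotInv]
    rw [sum_ins]
    · apply Finset.sum_congr rfl
      intro τ _
      rw [hr.1 τ, ev_rot h, cons_comp_rotate, K.left (2 * k) σ τ]
      ring
    · intro τ hτ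
      rw [hr.2 τ hτ, mul_zero]
  simp_rw [s1]
  rw [sum_rot (m := 2 * k) (fun σ => ∑ τ : Pat (2 * k + 1),
      w * Fac (q ^ 2) a (Fin.cons y2 z : Fin (2 * k + 1) → ℂ) *
      (κ (2 * k) σ τ * eval (Fin.cons a z : Fin (2 * k + 1) → ℂ) (Ψ σ) *
      eval (Fin.cons y2 z : Fin (2 * k + 1) → ℂ) (Ψ₁ τ)))]
  unfold BK KK
  simp_rw [Finset.mul_sum]

/-- `B` from `C` at `z₀ = q x` -/
theorem BK_from_right {q : ℂ} (hq : q ^ 2 + q + 1 = 0) {k : ℕ}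
    {Ψ : Pat (2 * k + 1) → MvPolynomial (Fin (2 * k + 1)) ℂ} (h : PsiSpec q k Ψ)
    {Ψ₂ : Pat (2 * (k + 1) + 1) → MvPolynomial (Fin (2 * (k + 1) + 1)) ℂ}
    (h₂ : PsiSpec q (k + 1) Ψ₂)
    (Ψ' : Pat (2 * (k + 1) + 1) → MvPolynomial (Fin (2 * (k + 1) + 1)) ℂ)
    (x y : ℂ) (z : Fin (2 * k + 1) → ℂ) :
    BK κ (n := k + 1) Ψ₂ Ψ' x y (Fin.cons (q * x) z : Fin (2 * k + 2) → ℂ) =
      Fac q x z * CK κ Ψ Ψ' y (q * x) z := by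
  have hr := psi_rec q hq k Ψ h Ψ₂ h₂ x z
  unfold BK CK KK
  refine (sum_ins (L := 2 * k + 1) _ ?_).trans ?_
  · intro τ hτ
    apply Finset.sum_eq_zero
    intro t _
    have e1 := hr.2 τ hτ
    have e2 : eval (Fin.cons x (Fin.cons (q * x) z : Fin (2 * k + 2) → ℂ) :
      Fin (2 * (k + 1) + 1) → ℂ) (Ψ₂ τ) = 0 := e1
    simp only
    rw [e2]
    ring
  · rw [Finset.mul_sum]
    apply Finset.sum_congr rfl
    intro σ _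
    rw [Finset.mul_sum]
    apply Finset.sum_congr rfl
    intro τ _
    have e1 := hr.1 σ
    have e2 : eval (Fin.cons x (Fin.cons (q * x) z : Fin (2 * k + 2) → ℂ) :
      Fin (2 * (k + 1) + 1) → ℂ) (Ψ₂ (ins σ)) = Fac q x z * eval z (Ψ σ) := e1
    have e3 : κ (2 * (k + 1)) (ins σ) τ = κ (2 * k + 2) (ins σ) τ := rfl
    simp only
    rw [e2, e3]
    refine Eq.trans ?_ (mul_assoc _ _ _)
    congr 1
    ring

/-- `B` from `C` at `x = q z_last` -/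
theorem BK_from_left (K : Ker w κ) {q : ℂ} (hq : q ^ 2 + q + 1 = 0) {k : ℕ}
    {Ψ : Pat (2 * k + 1) → MvPolynomial (Fin (2 * k + 1)) ℂ} (h : PsiSpec q k Ψ)
    {Ψ₂ : Pat (2 * (k + 1) + 1) → MvPolynomial (Fin (2 * (k + 1) + 1)) ℂ}
    (h₂ : PsiSpec q (k + 1) Ψ₂)
    {Ψ' : Pat (2 * (k + 1) + 1) → MvPolynomial (Fin (2 * (k + 1) + 1)) ℂ}
    (h' : PsiSpec (q ^ 2) (k + 1) Ψ')
    (a y : ℂ) (z : Fin (2 * k + 1) → ℂ) :
    BK κ (n := k + 1) Ψ₂ Ψ' (q * a) y (Fin.snoc z a : Fin (2 * k + 2) → ℂ) =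
      w⁻¹ * Fac q a z * CK κ Ψ Ψ' a y z := by
  have hr := psi_rec q hq k Ψ h Ψ₂ h₂ a z
  have key1 : ∀ t : Pat (2 * (k + 1) + 1), eval (Fin.cons (q * a) (Fin.snoc z a :
      Fin (2 * k + 2) → ℂ) : Fin (2 * (k + 1) + 1) → ℂ) (Ψ₂ t) =
      eval (Fin.cons a (Fin.cons (q * a) z : Fin (2 * k + 2) → ℂ) : Fin (2 * (k + 1) + 1) → ℂ)
        (Ψ₂ (rot (2 * (k + 1)) t)) := by
    intro t
    have := ev_rot h₂ (Fin.cons a (Fin.cons (q * a) z : Fin (2 * k + 2) → ℂ) :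
      Fin (2 * (k + 1) + 1) → ℂ) t
    refine Eq.trans ?_ this.symm
    congr 2
    refine Eq.trans ?_ (cons_comp_rotate (N := 2 * k + 2) _ _).symm
    rw [← Fin.cons_snoc_eq_snoc_cons]
  have key2 : ∀ t : Pat (2 * (k + 1) + 1), eval (Fin.cons y (Fin.snoc z a :
      Fin (2 * k + 2) → ℂ) : Fin (2 * (k + 1) + 1) → ℂ) (Ψ' t) =
      eval (Fin.cons a (Fin.cons y z : Fin (2 * k + 2) → ℂ) : Fin (2 * (k + 1) + 1) → ℂ)
        (Ψ' (rot (2 * (k + 1)) t)) := by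
    intro t
    have := ev_rot h' (Fin.cons a (Fin.cons y z : Fin (2 * k + 2) → ℂ) :
      Fin (2 * (k + 1) + 1) → ℂ) t
    refine Eq.trans ?_ this.symm
    congr 2
    refine Eq.trans ?_ (cons_comp_rotate (N := 2 * k + 2) _ _).symm
    rw [← Fin.cons_snoc_eq_snoc_cons]
  unfold BK CK KK
  simp only
  conv_lhs => simp only [key1, key2]
  rw [← sum_rotInv (m := 2 * (k + 1))]
  simp_rw [rot_rotInv]
  have s2 : ∀ σ : Pat (2 * (k + 1) + 1), ∑ τ : Pat (2 * (k + 1) + 1),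
    κ (2 * (k + 1)) (rotInv (2 * (k + 1)) σ) τ *
      eval (Fin.cons a (Fin.cons (q * a) z : Fin (2 * k + 2) → ℂ) : Fin (2 * (k + 1) + 1) → ℂ)
        (Ψ₂ σ) * eval (Fin.cons a (Fin.cons y z : Fin (2 * k + 2) → ℂ) :
          Fin (2 * (k + 1) + 1) → ℂ) (Ψ' (rot (2 * (k + 1)) τ)) =
    ∑ τ : Pat (2 * (k + 1) + 1), κ (2 * (k + 1)) (rotInv (2 * (k + 1)) σ)
        (rotInv (2 * (k + 1)) τ) *
      eval (Fin.cons a (Fin.cons (q * a) z : Fin (2 * k + 2) → ℂ) : Fin (2 * (k + 1) + 1) → ℂ)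
        (Ψ₂ σ) * eval (Fin.cons a (Fin.cons y z : Fin (2 * k + 2) → ℂ) :
          Fin (2 * (k + 1) + 1) → ℂ) (Ψ' τ) := by
    intro σ
    rw [← sum_rotInv (m := 2 * (k + 1))]
    simp_rw [rot_rotInv]
  simp_rw [s2]
  refine (sum_ins (L := 2 * k + 1) _ ?_).trans ?_
  · intro τ hτ
    apply Finset.sum_eq_zero
    intro t _
    have e1 := hr.2 τ hτ
    have e2 : eval (Fin.cons a (Fin.cons (q * a) z : Fin (2 * k + 2) → ℂ) :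
      Fin (2 * (k + 1) + 1) → ℂ) (Ψ₂ τ) = 0 := e1
    rw [e2]
    ring
  · rw [Finset.mul_sum]
    apply Finset.sum_congr rfl
    intro σ _
    rw [Finset.mul_sum]
    apply Finset.sum_congr rfl
    intro τ _
    have e1 := hr.1 σ
    have e2 : eval (Fin.cons a (Fin.cons (q * a) z : Fin (2 * k + 2) → ℂ) :
      Fin (2 * (k + 1) + 1) → ℂ) (Ψ₂ (ins σ)) = Fac q a z * eval z (Ψ σ) := e1
    have e3 : κ (2 * (k + 1)) (rotInv (2 * (k + 1)) (ins σ)) (rotInv (2 * (k + 1)) τ) =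
      w⁻¹ * κ (2 * k + 2) (ins σ) τ := K.one (2 * k) σ τ
    rw [e2, e3]
    refine Eq.trans ?_ (mul_assoc _ _ _)
    ring

/-- the case `n = 0` -/
theorem BK_zero (K : Ker w κ) {q : ℂ}
    {Ψ Ψ' : Pat (2 * 0 + 1) → MvPolynomial (Fin (2 * 0 + 1)) ℂ} (h : PsiSpec q 0 Ψ)
    (h' : PsiSpec (q ^ 2) 0 Ψ') (x y : ℂ) (z : Fin (2 * 0) → ℂ) :
    BK κ Ψ Ψ' x y z = 1 := by
  have hu : (Finset.univ : Finset (Pat (2 * 0 + 1))) = {base 0} := by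
    apply Finset.eq_singleton_iff_unique_mem.2
    exact ⟨Finset.mem_univ _, fun σ _ => pat_zero_eq σ⟩
  unfold BK KK
  rw [hu, Finset.sum_singleton, Finset.sum_singleton]
  have e1 : ∀ q : ℂ, Dl q 0 = 1 := by
    intro q
    simp [Dl]
  have e2 : κ (2 * 0) (base 0) (base 0) = 1 := K.base
  have e3 : Ψ (base 0) = Dl q 0 := h.base
  have e4 : Ψ' (base 0) = Dl (q ^ 2) 0 := h'.base
  simp only [e3, e4, e1, map_one, e2, mul_one]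

theorem BK_sym (K : Ker w κ) {q : ℂ} (hq : q ^ 2 + q + 1 = 0) {n : ℕ}
    {Ψ Ψ' : Pat (2 * n + 1) → MvPolynomial (Fin (2 * n + 1)) ℂ} (h : PsiSpec q n Ψ)
    (h' : PsiSpec (q ^ 2) n Ψ') (x y : ℂ) (z : Fin (2 * n) → ℂ) (p : Perm (Fin (2 * n)))
    (hz : Gn z) : BK κ Ψ Ψ' x y (z ∘ p) = BK κ Ψ Ψ' x y z := by
  rcases n with _ | k
  · have : z ∘ p = z := by
      funext i
      exact i.elim0
    rw [this]
  · apply sym_of_adj (N := 2 * k + 1) (fun z => BK κ (n := k + 1) Ψ Ψ' x y z) ?_ z hz p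
    intro z hz i
    exact BK_adj (n := k + 1) K hq h h' x y z i.val (by have := i.2; omega) (hz.2 _ _ (by
      intro h
      have := congrArg Fin.val h
      simp at this))

theorem CK_sym (K : Ker w κ) {q : ℂ} (hq : q ^ 2 + q + 1 = 0) {k : ℕ}
    {Ψ : Pat (2 * k + 1) → MvPolynomial (Fin (2 * k + 1)) ℂ} (h : PsiSpec q k Ψ)
    {Ψ' : Pat (2 * k + 3) → MvPolynomial (Fin (2 * k + 3)) ℂ}
    (h' : PsiSpec (q ^ 2) (k + 1) Ψ') (y1 y2 : ℂ) (z : Fin (2 * k + 1) → ℂ)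
    (p : Perm (Fin (2 * k + 1))) (hz : Gn z) :
    CK κ Ψ Ψ' y1 y2 (z ∘ p) = CK κ Ψ Ψ' y1 y2 z := by
  apply sym_of_adj (N := 2 * k) (fun z => CK κ Ψ Ψ' y1 y2 z) ?_ z hz p
  intro z hz i
  exact CK_adj K hq h h' y1 y2 z i.val i.2 (hz.2 _ _ (by
    intro h
    have := congrArg Fin.val h
    simp at this))

theorem BK_poly {q : ℂ} {n : ℕ}
    {Ψ Ψ' : Pat (2 * n + 1) → MvPolynomial (Fin (2 * n + 1)) ℂ} (h : PsiSpec q n Ψ)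
    (y : ℂ) (z : Fin (2 * n) → ℂ) : ∃ Q : Polynomial ℂ, Q.natDegree ≤ 2 * n ∧
      ∀ x, Q.eval x = BK κ Ψ Ψ' x y z := by
  refine poly_left (fun (σ τ : Pat (2 * n + 1)) => κ (2 * n) σ τ)
    (fun t σ => eval (Fin.cons t z : Fin (2 * n + 1) → ℂ) (Ψ σ))
    (fun τ => eval (Fin.cons y z : Fin (2 * n + 1) → ℂ) (Ψ' τ)) (2 * n) (fun σ => ?_)
  refine poly_in_var (Ψ σ) 0 (2 * n) (h.deg σ _) (fun t =>
    (Fin.cons t z : Fin (2 * n + 1) → ℂ)) (fun t => rfl) ?_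
  intro t j
  refine Fin.cases ?_ (fun j => ?_) j
  · intro h; exact absurd rfl h
  · intro _; rfl

theorem CK_poly {q : ℂ} {k : ℕ} {Ψ : Pat (2 * k + 1) → MvPolynomial (Fin (2 * k + 1)) ℂ}
    {Ψ' : Pat (2 * k + 3) → MvPolynomial (Fin (2 * k + 3)) ℂ}
    (h' : PsiSpec (q ^ 2) (k + 1) Ψ') (y1 : ℂ) (z : Fin (2 * k + 1) → ℂ) :
    ∃ Q : Polynomial ℂ, Q.natDegree ≤ 2 * k + 2 ∧ ∀ y2, Q.eval y2 = CK κ Ψ Ψ' y1 y2 z := by
  refine poly_right (fun (σ : Pat (2 * k + 1)) (τ : Pat (2 * k + 3)) =>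
    κ (2 * k + 2) (ins σ) τ) (fun σ => eval z (Ψ σ)) (fun t τ => eval (Fin.cons y1 (Fin.cons t z :
      Fin (2 * k + 2) → ℂ) : Fin (2 * k + 3) → ℂ) (Ψ' τ)) (2 * k + 2) (fun τ => ?_)
  refine poly_in_var (Ψ' τ) (Fin.succ 0) (2 * (k + 1)) (h'.deg τ _) (fun t =>
    (Fin.cons y1 (Fin.cons t z : Fin (2 * k + 2) → ℂ) : Fin (2 * k + 3) → ℂ)) (fun t => rfl) ?_
  intro t j
  refine Fin.cases ?_ (fun j => ?_) j
  · intro _; rfl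
  · refine Fin.cases ?_ (fun j => ?_) j
    · intro h; exact absurd rfl h
    · intro _; rfl

theorem BK_cont {n : ℕ} (Ψ Ψ' : Pat (2 * n + 1) → MvPolynomial (Fin (2 * n + 1)) ℂ) (x : ℂ) :
    Continuous (fun v : Fin (2 * n + 1) → ℂ => BK κ Ψ Ψ' x (v 0) (Fin.tail v)) := by
  unfold BK KK
  refine continuous_finsetSum _ fun σ _ => continuous_finsetSum _ fun τ _ => ?_
  refine ((continuous_const).mul ?_).mul ?_
  · refine (MvPolynomial.continuous_eval (Ψ σ)).comp ?_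
    refine continuous_pi fun j => ?_
    refine Fin.cases ?_ (fun j => ?_) j
    · exact continuous_const
    · exact continuous_apply _
  · refine (MvPolynomial.continuous_eval (Ψ' τ)).comp ?_
    have : (fun v : Fin (2 * n + 1) → ℂ => (Fin.cons (v 0) (Fin.tail v) : Fin (2 * n + 1) → ℂ)) =
        fun v => v := by
      funext v
      exact Fin.cons_self_tail v
    rw [this]
    exact continuous_id

end Pool.Agent.Helper82.WN
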