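import Pool.Agent.Helper21.WN.Stm
import Pool.Agent.Helper82.WN.Ker

/-!
# Project WN, steps INS and IN1
-/

set_option autoImplicit false

namespace Pool.Agent.Helper21.WN

open Pool.Agent.H974R3 Pool.Agent.Helper21.ID Equiv MvPolynomial

open Pool.Agent.Helper82.WN (Ker BK CK)

/-- the axioms of `Alg` for a kernel -/
theorem alg_of_ker {w : ℂ} {κ : (m : ℕ) → Pat (m + 1) → Pat (m + 1) → ℂ} (K : Ker w κ) (q : ℂ)
    (hq : q ^ 2 + q + 1 = 0)
    (Ψ Ψ' : (n : ℕ) → Pat (2 * n + 1) → MvPolynomial (Fin (2 * n + 1)) ℂ)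
    (h : ∀ n, PsiSpec q n (Ψ n)) (h' : ∀ n, PsiSpec (q ^ 2) n (Ψ' n)) :
    Alg q w (fun n => BK κ (Ψ n) (Ψ' n)) (fun k => CK κ (Ψ k) (Ψ' (k + 1))) where
  B0 x y z := Pool.Agent.Helper82.WN.BK_zero K (h 0) (h' 0) x y z
  Bsym n x y z p hz := Pool.Agent.Helper82.WN.BK_sym K hq (h n) (h' n) x y z p hz
  Bpoly n y z := Pool.Agent.Helper82.WN.BK_poly (h n) y z
  Bcont n x := Pool.Agent.Helper82.WN.BK_cont (Ψ n) (Ψ' n) x
  Csym k y1 y2 z p hz := Pool.Agent.Helper82.WN.CK_sym K hq (h k) (h' (k + 1)) y1 y2 z p hz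
  Cpoly k y1 z := Pool.Agent.Helper82.WN.CK_poly (h' (k + 1)) y1 z
  Canti k y1 y2 z := Pool.Agent.Helper82.WN.CK_anti K (h' (k + 1)) y1 y2 z
  CR k y1 y2 z := Pool.Agent.Helper82.WN.CK_from_right K hq (h' k) (h' (k + 1)) y1 y2 z
  CL k a y2 z := Pool.Agent.Helper82.WN.CK_from_left K hq (h k) (h' k) (h' (k + 1)) a y2 z
  BR k x y z := Pool.Agent.Helper82.WN.BK_from_right hq (h k) (h (k + 1)) (Ψ' (k + 1)) x y z
  BL k a y z := Pool.Agent.Helper82.WN.BK_from_left K hq (h k) (h (k + 1)) (h' (k + 1)) a y z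

/-! ### the kernel without weight -/

theorem ker_pr : Ker 1 (fun m => fun σ τ : Pat (m + 1) => (pr 0 σ τ : ℂ)) where
  adj m i σ τ h1 h2 := by
    apply pr_E
    · intro h
      have := congrArg Fin.val h
      simp only [ix, Fin.val_zero] at this
      rw [Nat.mod_eq_of_lt (by omega)] at this
      omega
    · intro h
      have := congrArg Fin.val h
      simp only [ix, Fin.val_zero] at this
      rw [Nat.mod_eq_of_lt (by omega)] at this
      omega
  zero m σ τ := pr_ins_E0 σ τ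
  right m σ τ := pr_ins_rot σ τ
  left m σ τ := by rw [one_mul]; exact pr_ins_rotInv σ τ
  one m σ τ := by
    rw [inv_one, one_mul]
    have h1 := pr_rot 0 (rotInv (m + 2) (ins σ)) (rotInv (m + 2) τ)
    rw [rot_rotInv, rot_rotInv] at h1
    refine h1.symm.trans ?_
    have h2 : (pr 1 (ins σ) τ : ℂ) = pr 0 (ins σ) τ := pr_one (m := m) σ τ
    refine Eq.trans ?_ h2
    congr 1
  base := by
    have e2 : (pr 0 (base 0) (base 0) : ℂ) = 1 := by
      unfold pr
      rw [if_pos]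
      intro k hk _
      have := hk none
      rw [(pat_zero (base 0)).1] at this
      exact this
    exact e2

theorem t_IN1 : S_IN1 := by
  intro q hq Ψ Ψ' h h'
  exact alg_of_ker ker_pr q hq Ψ Ψ' h h'

/-! ### the weighted kernel -/

theorem prw_of_CW (hU : K_U) (w : ℂ) {m : ℕ} {σ τ : Pat (m + 1)} {h : ℤ} (hC : CW h σ τ) :
    prw w σ τ = w ^ h := by
  unfold prw
  have hex : ∃ h, CW h σ τ := ⟨h, hC⟩
  rw [dif_pos hex]
  rw [hU m _ _ σ τ (Classical.choose_spec hex) hC]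

theorem prw_of_not (w : ℂ) {m : ℕ} {σ τ : Pat (m + 1)} (hC : ∀ h : ℤ, ¬ CW h σ τ) :
    prw w σ τ = 0 := by
  unfold prw
  rw [dif_neg]
  rintro ⟨h, hh⟩
  exact hC h hh

/-- comparison of two pairs of patterns -/
theorem prw_shift (hU : K_U) {w : ℂ} (hw : w ≠ 0) {m m' : ℕ} {σ τ : Pat (m + 1)}
    {σ' τ' : Pat (m' + 1)} (c : ℤ) (hC : ∀ h : ℤ, CW (h + c) σ τ ↔ CW h σ' τ') :
    prw w σ τ = w ^ c * prw w σ' τ' := by
  by_cases hex : ∃ h, CW h σ' τ'
  · obtain ⟨h, hh⟩ := hex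
    rw [prw_of_CW hU w hh, prw_of_CW hU w ((hC h).2 hh), ← zpow_add₀ hw, add_comm]
  · have h1 : ∀ h : ℤ, ¬ CW h σ' τ' := fun h hh => hex ⟨h, hh⟩
    have h2 : ∀ h : ℤ, ¬ CW h σ τ := by
      intro h hh
      apply h1 (h - c)
      rw [← hC (h - c), sub_add_cancel]
      exact hh
    rw [prw_of_not w h1, prw_of_not w h2, mul_zero]

theorem uu_zero_one (σ : Pat (0 + 1)) : uu σ 0 = 0 := by
  unfold uu
  have h1 : ¬ ∃ d, σ.1 none = some d ∧ d < (0 : Fin (0 + 1)) := by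
    rintro ⟨d, _, hd⟩
    exact absurd hd (Nat.not_lt_zero _)
  rw [if_neg h1]
  simp

theorem CW_base : CW 0 (base 0 : Pat (2 * 0 + 1)) (base 0 : Pat (2 * 0 + 1)) := by
  intro g hg
  have h1 := hg.upp none 0
  rw [(pat_zero (base 0)).1] at h1
  exact h1

theorem ker_prw (hE : K_E) (h0 : K_0) (hR : K_R) (hL : K_L) (h1 : K_1) (hU : K_U) (w : ℂ)
    (hw : w ≠ 0) : Ker w (fun m => fun σ τ : Pat (m + 1) => prw w σ τ) where
  adj m i σ τ i1 i2 := by
    have := prw_shift hU hw (σ := E m i σ) (τ := τ) (σ' := σ) (τ' := E m i τ) 0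
      (fun h => by rw [add_zero]; exact hE m i h σ τ i1 i2)
    rwa [zpow_zero, one_mul] at this
  zero m σ τ := prw_of_not w fun h => h0 m h σ τ
  right m σ τ := by
    have := prw_shift hU hw (m := m + 2) (m' := m) (σ := ins σ)
      (τ := rot (m + 2) (ins (rotInv m τ))) (σ' := σ) (τ' := τ) 0
      (fun h => by rw [add_zero]; exact hR m h σ τ)
    rwa [zpow_zero, one_mul] at this
  left m σ τ := by
    have := prw_shift hU hw (m := m + 2) (m' := m) (σ := ins σ)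
      (τ := rotInv (m + 2) (ins τ)) (σ' := rot m σ) (τ' := τ) 1
      (fun h => hL m h σ τ)
    rwa [zpow_one] at this
  one m σ τ := by
    have := prw_shift hU hw (m := m + 2) (m' := m + 2) (σ := rotInv (m + 2) (ins σ))
      (τ := rotInv (m + 2) τ) (σ' := ins σ) (τ' := τ) (-1)
      (fun h => h1 m h σ τ)
    rwa [zpow_neg_one] at this
  base := by
    have := prw_of_CW hU w CW_base
    rwa [zpow_zero] at this

theorem t_INS : K_E → K_0 → K_R → K_L → K_1 → K_U → S_INS := by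
  intro hE h0 hR hL h1 hU q w hq hw Ψ Ψ' h h'
  exact alg_of_ker (ker_prw hE h0 hR hL h1 hU w hw) q hq Ψ Ψ' h h'

end Pool.Agent.Helper21.WN
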